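import Pool.Agent.helper76.FF2.Spec

/-!
# BT0 (project FF2, MP_bbe200_nt): the truncated trace

Basic properties of `bt m x = x + x ^ 2 + x ^ 4 + ... + x ^ (2 ^ (m - 1))` in characteristic 2.
-/

set_option autoImplicit false

namespace Pool.Agent.FF2

open Polynomial

theorem BT0_add (K : Type*) [Field K] [CharP K 2] (m : ℕ) (x y : K) :
    bt m (x + y) = bt m x + bt m y := by
  unfold bt
  rw [← Finset.sum_add_distrib]
  refine Finset.sum_congr rfl fun i _ => ?_
  have : Fact (Nat.Prime 2) := ⟨Nat.prime_two⟩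
  exact add_pow_char_pow x y 2 i

theorem BT0_zero (K : Type*) [Field K] (m : ℕ) : bt m (0 : K) = 0 := by
  unfold bt
  refine Finset.sum_eq_zero fun i _ => ?_
  exact zero_pow (pow_ne_zero _ two_ne_zero)

theorem BT0_tel (K : Type*) [Field K] [CharP K 2] (m : ℕ) (y : K) :
    bt m (y ^ 2 + y) = y ^ 2 ^ m + y := by
  rw [BT0_add]
  induction m with
  | zero => simp [bt, CharTwo.add_self_eq_zero]
  | succ n ih =>
    have h1 : bt (n + 1) (y ^ 2) = bt n (y ^ 2) + y ^ 2 ^ (n + 1) := by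
      unfold bt
      rw [Finset.sum_range_succ, ← pow_mul, ← pow_succ']
    have h2 : bt (n + 1) y = bt n y + y ^ 2 ^ n := by
      unfold bt
      rw [Finset.sum_range_succ]
    rw [h1, h2]
    have h3 : bt n (y ^ 2) + y ^ 2 ^ (n + 1) + (bt n y + y ^ 2 ^ n)
        = (bt n (y ^ 2) + bt n y) + (y ^ 2 ^ (n + 1) + y ^ 2 ^ n) := by ring
    rw [h3, ih]
    have h4 : y ^ 2 ^ n + y + (y ^ 2 ^ (n + 1) + y ^ 2 ^ n)
        = (y ^ 2 ^ n + y ^ 2 ^ n) + (y ^ 2 ^ (n + 1) + y) := by ring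
    rw [h4, CharTwo.add_self_eq_zero, zero_add]

theorem BT0_sq (K : Type*) [Field K] [CharP K 2] (m : ℕ) (x : K) :
    (bt m x) ^ 2 = bt m (x ^ 2) := by
  unfold bt
  rw [CharTwo.sum_sq]
  refine Finset.sum_congr rfl fun i _ => ?_
  rw [← pow_mul, ← pow_mul, mul_comm]

theorem BT0_inv (K : Type*) [Field K] [CharP K 2] (m : ℕ) (x : K) (h : x ^ 2 ^ m = x) :
    bt m (x ^ 2) = bt m x := by
  have h1 := BT0_tel K m x
  rw [BT0_add, h, CharTwo.add_self_eq_zero] at h1
  have h2 := CharTwo.add_self_eq_zero (bt m x)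
  exact add_right_cancel (h1.trans h2.symm)

theorem BT0 (K : Type*) [Field K] [CharP K 2] : BT0_stmt K := by
  refine ⟨BT0_add K, BT0_zero K, BT0_tel K, ?_, BT0_inv K, ?_⟩
  · intro m x h
    have h1 := BT0_sq K m x
    rw [BT0_inv K m x h] at h1
    have h2 : bt m x * (bt m x - 1) = 0 := by
      rw [mul_sub, mul_one, ← sq, h1, sub_self]
    rcases mul_eq_zero.mp h2 with h3 | h3
    · exact Or.inl h3
    · exact Or.inr (sub_eq_zero.mp h3)
  · intro m s f
    induction s using Finset.cons_induction with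
    | empty => simp [BT0_zero]
    | cons a s ha ih =>
      rw [Finset.sum_cons, Finset.sum_cons, BT0_add, ih]

end Pool.Agent.FF2
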